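import Pool.Agent.H51.ERA.Stmts
import Pool.Agent.H51.ERA.Base

/-! MP_e0047e_lc, board `era`, module HT: heights in the left segment of a node. -/

set_option autoImplicit false

namespace Pool.Agent.H58.ERA

open Pool.Agent.H51.ERA

theorem ht_bal (hSUB : SUBStmt) (hTLN : TLNStmt) (s t : ℕ) (b : ℕ → Bool) (i : ℕ) (p : List Bool)
    (h : IsNode s t i p) (d : ℕ)
    (h0 : ((WW s t b).take (lo s t i p)).countP IsOp =
      ((WW s t b).take (lo s t i p)).countP IsCl + d) :
    ((WW s t b).take (hi s t i p)).countP IsOp =
      ((WW s t b).take (hi s t i p)).countP IsCl + d := by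
  obtain ⟨A, C, m, hW, hA⟩ := hSUB s t b i p h
  obtain ⟨hl, -, hc, -, -⟩ := hTLN s t b i (DD t - p.length) p m
  have e1 : (WW s t b).take (lo s t i p) = A := by
    rw [hW, ← hA, List.take_left]
  have e2 : (WW s t b).take (hi s t i p) = A ++ Tw s t b i (DD t - p.length) p m := by
    unfold hi
    rw [hW, ← hA, ← hl, List.take_length_add_append, List.take_left]
  rw [e1] at h0
  rw [e2, List.countP_append, List.countP_append]
  omega

theorem ht_vl (v : List (Fin 4)) :
    (v.map Ltr.vl).countP IsOp = 0 ∧ (v.map Ltr.vl).countP IsCl = 0 := by
  induction v with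
  | nil => simp
  | cons a v ih =>
    simp only [List.map_cons, List.countP_cons]
    exact ⟨by rw [ih.1]; simp [IsOp], by rw [ih.2]; simp [IsCl]⟩

theorem ht_root (hSUB : SUBStmt) (hTLN : TLNStmt) (s t : ℕ) (b : ℕ → Bool) (i : ℕ)
    (h : i < kk s) :
    ((WW s t b).take (lo s t i [])).countP IsOp =
      ((WW s t b).take (lo s t i [])).countP IsCl + 0 := by
  induction i with
  | zero =>
    have e : (WW s t b).take (lo s t 0 []) = (vpart s t b).map Ltr.vl := by
      have h1 : ((vpart s t b).map Ltr.vl).length = lo s t 0 [] := by
        simp [vpart, lo]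
      unfold WW
      rw [← h1, List.take_left]
    rw [e, (ht_vl _).1, (ht_vl _).2]
  | succ i ih =>
    have h1 := ht_bal hSUB hTLN s t b i [] ⟨by omega, Nat.zero_le _⟩ 0 (ih (by omega))
    have e : hi s t i [] = lo s t (i + 1) [] := by
      simp only [hi, lo, List.length_nil, Nat.sub_zero]
      ring
    rwa [e] at h1

theorem HT_thm (hSUB : SUBStmt) (hTLN : TLNStmt) (hOPS : OPSStmt) : HTStmt := by
  intro s t b i p
  have key : IsNode s t i p → ((WW s t b).take (lo s t i p)).countP IsOp =
      ((WW s t b).take (lo s t i p)).countP IsCl + p.length * gg s t → ∀ q ≤ gg s t,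
      ((WW s t b).take (lo s t i p + q)).countP IsOp =
      ((WW s t b).take (lo s t i p + q)).countP IsCl + (p.length * gg s t + q) := by
    intro hn h0 q hq
    have h1 := hOPS s t b i p 0 q hn (Nat.zero_le _) hq
    rw [Nat.add_zero] at h1
    rw [← take_sl (WW s t b) (Nat.le_add_right (lo s t i p) q), h1, List.countP_append,
      List.countP_append, countP_ops, countP_ops', h0]
    simp only [List.length_map, List.length_range']
    omega
  induction p with
  | nil =>
    intro q hn hq
    refine key hn ?_ q hq
    have := ht_root hSUB hTLN s t b i hn.1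
    simpa using this
  | cons c p ih =>
    intro q hn hq
    have hn' : IsNode s t i p := ⟨hn.1, by have := hn.2; simp only [List.length_cons] at this; omega⟩
    have hnf : IsNode s t i (false :: p) := ⟨hn.1, hn.2⟩
    refine key hn ?_ q hq
    have keyp : IsNode s t i p → ((WW s t b).take (lo s t i p)).countP IsOp =
        ((WW s t b).take (lo s t i p)).countP IsCl + p.length * gg s t → ∀ q ≤ gg s t,
        ((WW s t b).take (lo s t i p + q)).countP IsOp =
        ((WW s t b).take (lo s t i p + q)).countP IsCl + (p.length * gg s t + q) := by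
      intro hn h0 q hq
      have h1 := hOPS s t b i p 0 q hn (Nat.zero_le _) hq
      rw [Nat.add_zero] at h1
      rw [← take_sl (WW s t b) (Nat.le_add_right (lo s t i p) q), h1, List.countP_append,
        List.countP_append, countP_ops, countP_ops', h0]
      simp only [List.length_map, List.length_range']
      omega
    have hg := ih keyp (gg s t) hn' le_rfl
    have hlf : lo s t i (false :: p) = lo s t i p + gg s t := by simp [lo]
    have hf : ((WW s t b).take (lo s t i (false :: p))).countP IsOp =
        ((WW s t b).take (lo s t i (false :: p))).countP IsCl +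
          (p.length * gg s t + gg s t) := by
      rw [hlf]; exact hg
    have e : (c :: p).length * gg s t = p.length * gg s t + gg s t := by
      simp only [List.length_cons]; ring
    rw [e]
    cases c with
    | false => exact hf
    | true =>
      have h2 := ht_bal hSUB hTLN s t b i (false :: p) hnf _ hf
      have e2 : hi s t i (false :: p) = lo s t i (true :: p) := by
        simp [hi, lo]
      rwa [e2] at h2

end Pool.Agent.H58.ERA
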