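import Pool.Agent.H51.ERA.Stmts
import Pool.Agent.H51.ERA.Base

/-! MP_e0047e_lc, board `era`, module ROOT: not all roots are undetermined and open. -/

set_option autoImplicit false

namespace Pool.Agent.H58.ERA

open Pool.Agent.H51.ERA

/-- long entries are nonterminals -/
theorem long_nonterm {N Q : Type} {L : List Ltr → Prop} {rho : ℕ} (sys : CutSys N Q L rho)
    {q : Q} {K : List (Sg N)} (hcut : sys.Cut q K) {j : ℕ} (hj : j < K.length)
    (h : ps K j + 2 ≤ ps K (j + 1)) :
    ∃ (a : N) (y : List Ltr), K[j]? = some (Symbol.nonterminal a, y) := by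
  have h1 : K[j]? = some (K[j].1, K[j].2) := by rw [List.getElem?_eq_getElem hj]
  have h2 := ps_succ K h1
  rcases hA : K[j].1 with a | a
  · exfalso
    have hmem : (Symbol.terminal a, K[j].2) ∈ K := by
      rw [← hA]
      exact List.getElem_mem hj
    have h3 := sys.term q K hcut a _ hmem
    rw [h3] at h2
    simp only [List.length_singleton] at h2
    omega
  · exact ⟨a, K[j].2, by rw [h1, hA]⟩

theorem SAt_long {s t : ℕ} {N : Type} {K : List (Sg N)} {j i : ℕ} {p : List Bool}
    (h : SAt s t K j i p) : ps K j + 2 ≤ ps K (j + 1) := by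
  obtain ⟨h1, h2, -⟩ := h
  simp only [gg, ll, DD] at h2
  omega

theorem EAt_long {s t : ℕ} {N : Type} {K : List (Sg N)} {j i : ℕ} {p : List Bool}
    (h : EAt s t K j i p) : ps K j + 2 ≤ ps K (j + 1) := by
  obtain ⟨h1, -, -⟩ := h
  simp only [lam] at h1
  omega

theorem SAt_inside {s t : ℕ} {N : Type} {K : List (Sg N)} {j i : ℕ} {p : List Bool}
    (h : SAt s t K j i p) : lo s t i p < ps K (j + 1) ∧ ps K (j + 1) < hi s t i p := by
  obtain ⟨-, h2, h3⟩ := h
  simp only [gg, ll, DD] at h2 h3
  omega

theorem ROOT_thm (hUSE : USEStmt) (hLA : LEMAStmt) (hLB : LEMBStmt) (hD : DISJStmt) :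
    ROOTStmt := by
  intro N Q _ L rho sys hL s t b q K hs hcut hyl hund
  by_contra hno
  push Not at hno
  have hnode : ∀ i < kk s, IsNode s t i [] := fun i hi => ⟨hi, Nat.zero_le _⟩
  have hex : ∀ i : Fin (kk s), ∃ (a : N) (c : Bool) (j : ℕ) (y : List Ltr),
      K[j]? = some (Symbol.nonterminal a, y) ∧
      (c = true → SAt s t K j i []) ∧ (c = false → EAt s t K j i []) := by
    intro i
    rcases hUSE s t N K i [] (hund i i.2) (hno i i.2) with ⟨j, hj, h⟩ | ⟨j, hj, h⟩
    · obtain ⟨a, y, hy⟩ := long_nonterm sys hcut hj (SAt_long h)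
      exact ⟨a, true, j, y, hy, fun _ => h, fun h => by simp at h⟩
    · obtain ⟨a, y, hy⟩ := long_nonterm sys hcut hj (EAt_long h)
      exact ⟨a, false, j, y, hy, fun h => by simp at h, fun _ => h⟩
  choose fa fc fj fy h1 h2 h3 using hex
  have hinj : Function.Injective fun i => (fa i, fc i) := by
    intro i i' he
    simp only [Prod.mk.injEq] at he
    obtain ⟨ea, ec⟩ := he
    cases hc : fc i with
    | true =>
      have hS := h2 i hc
      have hS' := h2 i' (by rw [← ec]; exact hc)
      have e1 := h1 i'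
      rw [← ea] at e1
      have hj := hLA N Q L rho sys hL s t b q K hcut hyl i i' [] [] (fj i) (fj i') _ _ _
        (hnode i i.2) (hnode i' i'.2) hS hS' (h1 i) e1
      have i1 := SAt_inside hS
      have i2 := SAt_inside hS'
      rw [← hj] at i2
      exact Fin.ext (hD s t _ i i' [] [] (hnode i i.2) (hnode i' i'.2) rfl i1.1 i1.2 i2.1 i2.2).1
    | false =>
      have hE := h3 i hc
      have hE' := h3 i' (by rw [← ec]; exact hc)
      have e1 := h1 i'
      rw [← ea] at e1
      have hp := hLB N Q L rho sys hL s t b q K hcut hyl i i' [] [] (fj i) (fj i') _ _ _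
        (hnode i i.2) (hnode i' i'.2) hE hE' (h1 i) e1
      simp only [per, if_true] at hp
      exact Fin.ext (by omega)
  have hc := Fintype.card_le_of_injective _ hinj
  rw [Fintype.card_fin, Fintype.card_prod, Fintype.card_bool, ← hs] at hc
  unfold kk at hc
  omega

end Pool.Agent.H58.ERA
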